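import Pool.Agent.Helper71.W5.Moeb

/-!
# Cyclic covers of the plane: three polynomials of degree one in `y`
-/

set_option autoImplicit false

namespace Pool.Agent.Helper71.W5

open Polynomial
open Pool.Agent.Helper87.CC (IsLC isLC_std ft_of_surj ft_of_hom ft_loc ft_alg)
open Pool.Agent.Helper29.CQ (FormalClass)
open Pool.Agent.Helper67.CQ
open Pool.Agent.Helper9.TP

variable {p : ℕ} {P : ∀ (A : Type) [CommRing A], Prop} {k : Type} [Field k]

theorem exists_ln (f : MvPolynomial (Fin 2) k) (h : ∀ m ∈ f.support, m 1 ≤ 1) :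
    ∃ a b : k[X], f = ln a b := by
  rw [MvPolynomial.as_sum f]
  refine Finset.sum_induction _ (fun g => ∃ a b : k[X], g = ln a b) ?_ ?_ ?_
  · rintro _ _ ⟨a, b, rfl⟩ ⟨a', b', rfl⟩
    refine ⟨a + a', b + b', ?_⟩
    rw [ln, ln, ln, map_add, map_add]
    ring
  · refine ⟨0, 0, ?_⟩
    rw [ln, map_zero, zero_mul, add_zero]
  · intro m hm
    have h1 : MvPolynomial.monomial m (f.coeff m) =
        iv k 0 (C (f.coeff m) * X ^ m 0) * MvPolynomial.X 1 ^ m 1 := by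
      rw [MvPolynomial.monomial_eq, Finsupp.prod_fintype _ _ (fun i => pow_zero _),
        Fin.prod_univ_two, map_mul, map_pow, iv_C, iv_X]
      ring
    have h2 := h m hm
    interval_cases h3 : m 1
    · refine ⟨0, C (f.coeff m) * X ^ m 0, ?_⟩
      rw [h1, pow_zero, mul_one, ln, map_zero (iv k 0), zero_mul, zero_add]
    · refine ⟨C (f.coeff m) * X ^ m 0, 0, ?_⟩
      rw [h1, pow_one, ln, map_zero (iv k 0), add_zero]

/-- proportional polynomials -/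
theorem prop_ln {a b a' b' : k[X]} (h : a * b' - b * a' = 0) (h1 : ln a b ≠ 0)
    (h2 : ln a' b' ≠ 0) : ∃ c c' : k[X], c ≠ 0 ∧ c' ≠ 0 ∧
      iv k 0 c * ln a b = iv k 0 c' * ln a' b' := by
  have hz : ln (0 : k[X]) 0 = 0 := by rw [ln, map_zero, zero_mul, add_zero]
  by_cases ha : a = 0
  · subst ha
    have hb : b ≠ 0 := by
      rintro rfl
      exact h1 hz
    have ha' : a' = 0 := by
      rw [zero_mul, zero_sub, neg_eq_zero] at h
      exact (mul_eq_zero.1 h).resolve_left hb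
    subst ha'
    have hb' : b' ≠ 0 := by
      rintro rfl
      exact h2 hz
    refine ⟨b', b, hb', hb, ?_⟩
    rw [ln_mul, ln_mul, mul_zero, mul_zero, mul_comm]
  · have ha' : a' ≠ 0 := by
      rintro rfl
      rw [mul_zero, sub_zero] at h
      have h3 := (mul_eq_zero.1 h).resolve_left ha
      subst h3
      exact h2 hz
    refine ⟨a', a, ha', ha, ?_⟩
    rw [ln_mul, ln_mul]
    congr 1
    · exact mul_comm _ _
    · linear_combination -h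

/-- the pencils, in the form in which they are used -/
theorem qa_use [Finite k] (hP : FormalClass p P) (hk : (p : k) = 0) {n : ℕ} (hn : n ≠ 0)
    {α β γ δ : k[X]} (hD : α * δ - β * γ ≠ 0) {c₁ c₂ : k[X]} (h1 : c₁ ≠ 0) (h2 : c₂ ≠ 0)
    (a b : ℕ) {A B u : MvPolynomial (Fin 2) k} (hu : u ≠ 0)
    (e : (iv k 0 c₁ * ln α β ^ a * (ln γ δ - ln α β) ^ b) * B =
      A * (iv k 0 c₂ * ln γ δ ^ (a + b))) : QA P n A B ⊥ u := by
  refine qa_any hP hk hn (N := a + b + 1) ?_ ?_ hu e (qa_moeb hP hk hn hD h1 h2 a b)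
  · rw [pow_succ, mul_comm]
    refine mul_dvd_mul (pow_dvd_pow_of_dvd ?_ _) ?_
    · exact ⟨iv k 0 (α * δ - β * γ) * ln α β * (ln γ δ - ln α β) * iv k 0 (c₁ * c₂), by ring⟩
    · rw [map_mul]
      exact ⟨iv k 0 (α * δ - β * γ) * ln α β * ln γ δ * (ln γ δ - ln α β) * iv k 0 c₁, by ring⟩
  · have hF : ln α β ≠ 0 := by
      intro h
      obtain ⟨ha, hb⟩ := ln_zero h
      rw [ha, hb, zero_mul, zero_mul, sub_zero] at hD
      exact hD rfl
    have hG : ln γ δ ≠ 0 := by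
      intro h
      obtain ⟨ha, hb⟩ := ln_zero h
      rw [ha, hb, mul_zero, mul_zero, sub_zero] at hD
      exact hD rfl
    have hH : ln γ δ - ln α β ≠ 0 := by
      intro h
      rw [ln_sub] at h
      obtain ⟨ha, hb⟩ := ln_zero h
      rw [sub_eq_zero.1 ha, sub_eq_zero.1 hb, mul_comm, sub_self] at hD
      exact hD rfl
    exact mul_ne_zero (mul_ne_zero (mul_ne_zero (mul_ne_zero (iv_ne hD) hF) hG) hH)
      (iv_ne (mul_ne_zero h1 h2))

/-- **(W5)** three polynomials which are linear in `y` -/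
theorem qa_lin [Finite k] (hP : FormalClass p P) (hk : (p : k) = 0) {n : ℕ} (hn : n ≠ 0)
    (f₀ f₁ f₂ : MvPolynomial (Fin 2) k) (l₀ : ∀ m ∈ f₀.support, m 1 ≤ 1)
    (l₁ : ∀ m ∈ f₁.support, m 1 ≤ 1) (l₂ : ∀ m ∈ f₂.support, m 1 ≤ 1) (n₀ : f₀ ≠ 0)
    (n₁ : f₁ ≠ 0) (n₂ : f₂ ≠ 0) (s t : ℕ) :
    QA P n (f₀ ^ s * f₂ ^ t) (f₁ ^ (s + t)) ⊥ (f₀ * f₁ * f₂) := by
  obtain ⟨a₀, b₀, rfl⟩ := exists_ln f₀ l₀
  obtain ⟨a₁, b₁, rfl⟩ := exists_ln f₁ l₁
  obtain ⟨a₂, b₂, rfl⟩ := exists_ln f₂ l₂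
  have hu : ln a₀ b₀ * ln a₁ b₁ * ln a₂ b₂ ≠ 0 := mul_ne_zero (mul_ne_zero n₀ n₁) n₂
  by_cases h01 : a₀ * b₁ - b₀ * a₁ = 0
  · obtain ⟨c, c', hc, hc', e1⟩ := prop_ln h01 n₀ n₁
    by_cases h21 : a₂ * b₁ - b₂ * a₁ = 0
    · obtain ⟨d, d', hd, hd', e2⟩ := prop_ln h21 n₂ n₁
      refine qa_any hP hk hn (N := 1) ?_ ?_ hu ?_ (qa_sep hP hk hn (c' ^ s * d' ^ t)
        (c ^ s * d ^ t) 1 1)
      · rw [pow_one, mul_one, map_mul (iv k 0) (c' ^ s * d' ^ t) (c ^ s * d ^ t)]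
        exact ⟨iv k 0 (c' ^ s * d' ^ t), by ring⟩
      · rw [mul_one, map_one, mul_one]
        exact iv_ne (mul_ne_zero (mul_ne_zero (pow_ne_zero _ hc') (pow_ne_zero _ hd'))
          (mul_ne_zero (pow_ne_zero _ hc) (pow_ne_zero _ hd)))
      · rw [map_one, mul_one, mul_one, map_mul, map_mul, map_pow, map_pow, map_pow, map_pow,
          pow_add]
        calc iv k 0 c' ^ s * iv k 0 d' ^ t * (ln a₁ b₁ ^ s * ln a₁ b₁ ^ t) =
            (iv k 0 c' * ln a₁ b₁) ^ s * (iv k 0 d' * ln a₁ b₁) ^ t := by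
              rw [mul_pow, mul_pow]; ring
          _ = (iv k 0 c * ln a₀ b₀) ^ s * (iv k 0 d * ln a₂ b₂) ^ t := by rw [e1, e2]
          _ = _ := by rw [mul_pow, mul_pow]; ring
    · refine qa_use hP hk hn h21 (pow_ne_zero s hc') (pow_ne_zero s hc) t 0 hu ?_
      rw [map_pow, map_pow, pow_zero, mul_one, add_zero, pow_add]
      calc iv k 0 c' ^ s * ln a₂ b₂ ^ t * (ln a₁ b₁ ^ s * ln a₁ b₁ ^ t) =
          (iv k 0 c' * ln a₁ b₁) ^ s * (ln a₂ b₂ ^ t * ln a₁ b₁ ^ t) := by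
            rw [mul_pow]; ring
        _ = (iv k 0 c * ln a₀ b₀) ^ s * (ln a₂ b₂ ^ t * ln a₁ b₁ ^ t) := by rw [e1]
        _ = _ := by rw [mul_pow]; ring
  · by_cases h21 : a₂ * b₁ - b₂ * a₁ = 0
    · obtain ⟨d, d', hd, hd', e2⟩ := prop_ln h21 n₂ n₁
      refine qa_use hP hk hn h01 (pow_ne_zero t hd') (pow_ne_zero t hd) s 0 hu ?_
      rw [map_pow, map_pow, pow_zero, mul_one, add_zero, pow_add]
      calc iv k 0 d' ^ t * ln a₀ b₀ ^ s * (ln a₁ b₁ ^ s * ln a₁ b₁ ^ t) =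
          (iv k 0 d' * ln a₁ b₁) ^ t * (ln a₀ b₀ ^ s * ln a₁ b₁ ^ s) := by
            rw [mul_pow]; ring
        _ = (iv k 0 d * ln a₂ b₂) ^ t * (ln a₀ b₀ ^ s * ln a₁ b₁ ^ s) := by rw [e2]
        _ = _ := by rw [mul_pow]; ring
    · by_cases h20 : a₂ * b₀ - b₂ * a₀ = 0
      · obtain ⟨d, d', hd, hd', e2⟩ := prop_ln h20 n₂ n₀
        refine qa_use hP hk hn h01 (pow_ne_zero t hd') (pow_ne_zero t hd) (s + t) 0 hu ?_
        rw [map_pow, map_pow, pow_zero, mul_one, add_zero]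
        calc iv k 0 d' ^ t * ln a₀ b₀ ^ (s + t) * ln a₁ b₁ ^ (s + t) =
            (iv k 0 d' * ln a₀ b₀) ^ t * (ln a₀ b₀ ^ s * ln a₁ b₁ ^ (s + t)) := by
              rw [mul_pow, pow_add (ln a₀ b₀)]; ring
          _ = (iv k 0 d * ln a₂ b₂) ^ t * (ln a₀ b₀ ^ s * ln a₁ b₁ ^ (s + t)) := by rw [e2]
          _ = _ := by rw [mul_pow]; ring
      · -- the generic case
        have eH : iv k 0 (a₂ * b₀ - b₂ * a₀) * ln a₁ b₁ -
            iv k 0 (a₂ * b₁ - b₂ * a₁) * ln a₀ b₀ =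
            iv k 0 (-(a₀ * b₁ - b₀ * a₁)) * ln a₂ b₂ := by
          rw [ln_mul, ln_mul, ln_sub, ln_mul]
          congr 1 <;> ring
        have hD : (a₂ * b₁ - b₂ * a₁) * a₀ * ((a₂ * b₀ - b₂ * a₀) * b₁) -
            (a₂ * b₁ - b₂ * a₁) * b₀ * ((a₂ * b₀ - b₂ * a₀) * a₁) ≠ 0 := by
          have h1 : (a₂ * b₁ - b₂ * a₁) * a₀ * ((a₂ * b₀ - b₂ * a₀) * b₁) -
            (a₂ * b₁ - b₂ * a₁) * b₀ * ((a₂ * b₀ - b₂ * a₀) * a₁) =
            (a₂ * b₁ - b₂ * a₁) * (a₂ * b₀ - b₂ * a₀) * (a₀ * b₁ - b₀ * a₁) := by ring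
          rw [h1]
          exact mul_ne_zero (mul_ne_zero h21 h20) h01
        refine qa_use hP hk hn hD (pow_ne_zero (s + t) h20)
          (mul_ne_zero (pow_ne_zero s h21) (pow_ne_zero t (neg_ne_zero.2 h01))) s t hu ?_
        rw [← ln_mul, ← ln_mul, eH, map_pow, map_mul, map_pow, map_pow, mul_pow, mul_pow,
          mul_pow]
        ring

end Pool.Agent.Helper71.W5
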