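import Pool.Agent.Helper71.W5.Sep

/-!
# Cyclic covers of the plane: pencils of polynomials of degree one
-/

set_option autoImplicit false

namespace Pool.Agent.Helper71.W5

open Polynomial
open Pool.Agent.Helper87.CC (IsLC isLC_std ft_of_surj ft_of_hom ft_loc ft_alg)
open Pool.Agent.Helper29.CQ (FormalClass)
open Pool.Agent.Helper67.CQ
open Pool.Agent.Helper9.QP (PK lc_ft ft_fin char_fin pk_curve dim_away lc_char)
open Pool.Agent.Helper9.TP

variable {p : ℕ} {P : ∀ (A : Type) [CommRing A], Prop} {k : Type} [Field k]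

/-- the polynomial `a(x) y + b(x)` -/
noncomputable def ln (a b : k[X]) : MvPolynomial (Fin 2) k :=
  iv k 0 a * MvPolynomial.X 1 + iv k 0 b

theorem ln_mul (c a b : k[X]) : iv k 0 c * ln a b = ln (c * a) (c * b) := by
  rw [ln, ln, map_mul, map_mul]
  ring

theorem ln_sub (a b a' b' : k[X]) : ln a b - ln a' b' = ln (a - a') (b - b') := by
  rw [ln, ln, ln, map_sub, map_sub]
  ring

theorem ln_zero {a b : k[X]} (h : ln a b = 0) : a = 0 ∧ b = 0 := by
  have h1 : ∀ t : k, t • a + b = 0 := by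
    intro t
    let ε : MvPolynomial (Fin 2) k →ₐ[k] k[X] := MvPolynomial.aeval ![X, C t]
    have h2 : ∀ q, ε (iv k 0 q) = q := by
      intro q
      have h3 : ε.comp (iv k 0) = AlgHom.id k _ := by
        apply Polynomial.algHom_ext
        rw [AlgHom.comp_apply, iv_X, MvPolynomial.aeval_X, AlgHom.id_apply]
        rfl
      exact DFunLike.congr_fun h3 q
    have h4 := congrArg ε h
    rw [ln, map_add, map_mul, h2, h2, MvPolynomial.aeval_X, map_zero] at h4
    rw [← C_mul', mul_comm]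
    exact h4
  have hb : b = 0 := by
    have h2 := h1 0
    rw [zero_smul, zero_add] at h2
    exact h2
  have h3 := h1 1
  rw [hb, one_smul, add_zero] at h3
  exact ⟨h3, hb⟩

theorem lc_moeb {T : Type} [CommRing T] {α β γ δ D : k[X]} (hD : α * δ - β * γ = D)
    {w : MvPolynomial (Fin 2) k}
    {q : k[X]} (hw : w = iv k 0 D * ln α β * ln γ δ * (ln γ δ - ln α β) *
      iv k 0 q) {j : MvPolynomial (Fin 2) k →+* T} (hj : IsLC j ⊥ w) :
    ∃ (J : MvPolynomial (Fin 2) k →+* T) (V : T), V * j (ln γ δ) = j (ln α β) ∧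
      J (MvPolynomial.X 1) = V ∧ (∀ c, J (iv k 0 c) = j (iv k 0 c)) ∧
      IsLC J ⊥ (iv k 0 D * MvPolynomial.X 1 *
        (iv k 0 γ * MvPolynomial.X 1 - iv k 0 α) * (1 - MvPolynomial.X 1) * iv k 0 q) := by
  have hun := hj.unit
  rw [hw, map_mul, map_mul, map_mul, map_mul, IsUnit.mul_iff, IsUnit.mul_iff, IsUnit.mul_iff,
    IsUnit.mul_iff] at hun
  obtain ⟨⟨⟨⟨uD, uF⟩, uG⟩, uH⟩, uq⟩ := hun
  obtain ⟨V, hV⟩ := ex_b j (ln α β) (ln γ δ) uG
  let J : MvPolynomial (Fin 2) k →+* T := MvPolynomial.eval₂Hom (j.comp MvPolynomial.C)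
    ![j (MvPolynomial.X 0), V]
  have JC : ∀ c, J (MvPolynomial.C c) = j (MvPolynomial.C c) := fun c =>
    MvPolynomial.eval₂Hom_C _ _ _
  have J0 : J (MvPolynomial.X 0) = j (MvPolynomial.X 0) := MvPolynomial.eval₂Hom_X' _ _ _
  have J1 : J (MvPolynomial.X 1) = V := MvPolynomial.eval₂Hom_X' _ _ _
  have hJ0 : ∀ c, J (iv k 0 c) = j (iv k 0 c) := fun c => iv_ext JC J0 c
  have e1 : (j (iv k 0 γ) * V - j (iv k 0 α)) * j (ln γ δ) =
      - j (iv k 0 D) := by
    have h1 : iv k 0 γ * ln α β - iv k 0 α * ln γ δ = - iv k 0 D := by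
      rw [ln, ln, ← hD, map_sub, map_mul, map_mul]
      ring
    rw [sub_mul, mul_assoc, hV, ← map_mul, ← map_mul, ← map_sub, h1, map_neg]
  have u1 : IsUnit (j (iv k 0 γ) * V - j (iv k 0 α)) := by
    have h1 : IsUnit ((j (iv k 0 γ) * V - j (iv k 0 α)) * j (ln γ δ)) := by
      rw [e1]
      exact uD.neg
    exact isUnit_of_mul_isUnit_left h1
  have u2 : IsUnit V := by
    have h1 : IsUnit (V * j (ln γ δ)) := by
      rw [hV]
      exact uF
    exact isUnit_of_mul_isUnit_left h1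
  have u3 : IsUnit (1 - V) := by
    have h1 : IsUnit ((1 - V) * j (ln γ δ)) := by
      rw [sub_mul, one_mul, hV, ← map_sub]
      exact uH
    exact isUnit_of_mul_isUnit_left h1
  refine ⟨J, V, hV, J1, hJ0, ⟨?_, ?_, ?_, ?_⟩⟩
  · intro b hb
    rw [Ideal.mem_bot.1 hb, map_zero]
  · rw [map_mul, map_mul, map_mul, map_mul, map_sub, map_sub, map_mul, map_one, hJ0, hJ0, hJ0,
      hJ0, J1]
    exact (((uD.mul u2).mul u1).mul u3).mul uq
  · intro E _ v _ hv
    rw [map_mul, map_mul, map_mul, map_mul, map_sub, map_sub, map_mul, map_one, IsUnit.mul_iff,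
      IsUnit.mul_iff, IsUnit.mul_iff, IsUnit.mul_iff] at hv
    obtain ⟨⟨⟨⟨vD, vV⟩, vd⟩, vH⟩, vq⟩ := hv
    set W := v (MvPolynomial.X 1) with hW
    have vd' : IsUnit (v (iv k 0 α) - v (iv k 0 γ) * W) := by
      rw [← neg_sub]
      exact vd.neg
    obtain ⟨d, hd⟩ := vd'
    have hdi : (v (iv k 0 α) - v (iv k 0 γ) * W) * ((d⁻¹ : Eˣ) : E) = 1 := by
      rw [← hd, Units.mul_inv]
    let v₁ : MvPolynomial (Fin 2) k →+* E := MvPolynomial.eval₂Hom (v.comp MvPolynomial.C)
      ![v (MvPolynomial.X 0), (v (iv k 0 δ) * W - v (iv k 0 β)) * ((d⁻¹ : Eˣ) : E)]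
    have vC : ∀ c, v₁ (MvPolynomial.C c) = v (MvPolynomial.C c) := fun c =>
      MvPolynomial.eval₂Hom_C _ _ _
    have v0 : v₁ (MvPolynomial.X 0) = v (MvPolynomial.X 0) := MvPolynomial.eval₂Hom_X' _ _ _
    have v1 : v₁ (MvPolynomial.X 1) =
      (v (iv k 0 δ) * W - v (iv k 0 β)) * ((d⁻¹ : Eˣ) : E) := MvPolynomial.eval₂Hom_X' _ _ _
    have hv0 : ∀ c, v₁ (iv k 0 c) = v (iv k 0 c) := fun c => iv_ext vC v0 c
    have eG : v₁ (ln γ δ) = v (iv k 0 D) * ((d⁻¹ : Eˣ) : E) := by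
      rw [ln, map_add, map_mul, hv0, hv0, v1, ← hD, map_sub, map_mul, map_mul, map_sub,
        map_mul, map_mul]
      linear_combination (- v (iv k 0 δ)) * hdi
    have eF : v₁ (ln α β) = W * v₁ (ln γ δ) := by
      rw [eG, ln, map_add, map_mul, hv0, hv0, v1, ← hD, map_sub, map_mul, map_mul, map_sub,
        map_mul, map_mul]
      linear_combination (- v (iv k 0 β)) * hdi
    have uG' : IsUnit (v₁ (ln γ δ)) := by
      rw [eG]
      exact vD.mul (Units.isUnit _)
    obtain ⟨g, hg⟩ := hj.ex E v₁ (fun b hb => by rw [Ideal.mem_bot.1 hb, map_zero]) (by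
      rw [hw, map_mul, map_mul, map_mul, map_mul, map_sub, hv0, hv0, eF]
      refine (((vD.mul (vV.mul uG')).mul uG').mul ?_).mul vq
      have h1 : v₁ (ln γ δ) - W * v₁ (ln γ δ) = (1 - W) * v₁ (ln γ δ) := by ring
      rw [h1]
      exact vH.mul uG')
    have hg' : ∀ x, g (j x) = v₁ x := fun x => RingHom.congr_fun hg x
    refine ⟨g, ?_⟩
    apply MvPolynomial.ringHom_ext
    · intro c
      change g (J (MvPolynomial.C c)) = v (MvPolynomial.C c)
      rw [JC, hg', vC]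
    · intro l
      change g (J (MvPolynomial.X l)) = v (MvPolynomial.X l)
      fin_cases l
      · change g (J (MvPolynomial.X 0)) = v (MvPolynomial.X 0)
        rw [J0, hg', v0]
      · change g (J (MvPolynomial.X 1)) = v (MvPolynomial.X 1)
        rw [J1]
        apply uG'.mul_right_cancel
        rw [← hg', ← map_mul, hV, hg', hg', eF]
  · intro E _ g g' hh
    have hh' : ∀ x, g (J x) = g' (J x) := fun x => RingHom.congr_fun hh x
    apply hj.uniq
    have hCC : ∀ c, g (j (MvPolynomial.C c)) = g' (j (MvPolynomial.C c)) := fun c => by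
      rw [← JC, hh']
    have h0 : g (j (MvPolynomial.X 0)) = g' (j (MvPolynomial.X 0)) := by rw [← J0, hh']
    have hc : ∀ c, g (j (iv k 0 c)) = g' (j (iv k 0 c)) := fun c => by rw [← hJ0, hh']
    have h1 : g V = g' V := by rw [← J1, hh']
    apply MvPolynomial.ringHom_ext
    · exact hCC
    · intro l
      change g (j (MvPolynomial.X l)) = g' (j (MvPolynomial.X l))
      fin_cases l
      · exact h0
      · change g (j (MvPolynomial.X 1)) = g' (j (MvPolynomial.X 1))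
        have e2 : (j (iv k 0 γ) * V - j (iv k 0 α)) * j (MvPolynomial.X 1) =
            j (iv k 0 β) - j (iv k 0 δ) * V := by
          have h3 := hV
          rw [ln, ln, map_add, map_add, map_mul, map_mul] at h3
          linear_combination h3
        have e3 := congrArg g e2
        have e4 := congrArg g' e2
        rw [map_mul, map_sub, map_mul, map_sub, map_mul, hc, hc, hc, hc, h1] at e3
        rw [map_mul, map_sub, map_mul, map_sub, map_mul] at e4
        have u4 : IsUnit (g' (j (iv k 0 γ)) * g' V - g' (j (iv k 0 α))) := by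
          rw [← map_mul, ← map_sub]
          exact u1.map g'
        apply u4.mul_left_cancel
        rw [e3, e4]

/-- **pencils of polynomials of degree one in `y`** -/
theorem qa_moeb [Finite k] (hP : FormalClass p P) (hk : (p : k) = 0) {n : ℕ} (hn : n ≠ 0)
    {α β γ δ : k[X]} (hD : α * δ - β * γ ≠ 0) {c₁ c₂ : k[X]} (h1 : c₁ ≠ 0) (h2 : c₂ ≠ 0)
    (a b : ℕ) :
    QA P n (iv k 0 c₁ * ln α β ^ a * (ln γ δ - ln α β) ^ b) (iv k 0 c₂ * ln γ δ ^ (a + b)) ⊥
      (iv k 0 (α * δ - β * γ) * ln α β * ln γ δ * (ln γ δ - ln α β) * iv k 0 (c₁ * c₂)) := by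
  intro T _ j c hj hB hc
  obtain ⟨J, V, hV, J1, J0, hJ⟩ := lc_moeb rfl rfl hj
  have hun := hj.unit
  rw [map_mul, map_mul, map_mul, map_mul, IsUnit.mul_iff, IsUnit.mul_iff, IsUnit.mul_iff,
    IsUnit.mul_iff] at hun
  obtain ⟨⟨⟨⟨uD, uF⟩, uG⟩, uH⟩, uq⟩ := hun
  have hs := qa_sep hP hk hn c₁ c₂ (X ^ a * (1 - X) ^ b) 1
  have e1 : iv k 1 (X ^ a * (1 - X) ^ b) =
      MvPolynomial.X 1 ^ a * (1 - MvPolynomial.X 1) ^ b := by
    rw [map_mul, map_pow, map_pow, map_sub, map_one, iv_X]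
  rw [mul_one, map_one, mul_one, e1] at hs
  have hα : ln α β ≠ 0 := by
    intro h
    obtain ⟨ha, hb⟩ := ln_zero h
    rw [ha, hb, zero_mul, zero_mul, sub_zero] at hD
    exact hD rfl
  have h1X : (1 : k[X]) - X ≠ 0 := by
    intro h
    have h3 := congrArg (Polynomial.eval (0 : k)) h
    rw [eval_sub, eval_one, eval_X, eval_zero, sub_zero] at h3
    exact one_ne_zero h3
  have h1X' : (1 : MvPolynomial (Fin 2) k) - MvPolynomial.X 1 ≠ 0 := by
    have h3 := iv_ne (l := 1) h1X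
    rw [map_sub, map_one, iv_X] at h3
    exact h3
  have hN : iv k 0 γ * MvPolynomial.X 1 - iv k 0 α ≠ 0 := by
    intro h
    have h3 : ln γ (-α) = 0 := by
      rw [ln, map_neg, ← sub_eq_add_neg]
      exact h
    obtain ⟨ha, hb⟩ := ln_zero h3
    rw [neg_eq_zero] at hb
    rw [ha, hb, zero_mul, mul_zero, sub_zero] at hD
    exact hD rfl
  have hX1 : (MvPolynomial.X 1 : MvPolynomial (Fin 2) k) ≠ 0 := MvPolynomial.X_ne_zero 1
  refine qa_any hP hk hn (N := 1) ?_ ?_ ?_ rfl hs T J c hJ ?_ ?_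
  · rw [pow_one, map_mul]
    exact ⟨iv k 0 c₁ * (MvPolynomial.X 1 ^ a * (1 - MvPolynomial.X 1) ^ b), by ring⟩
  · exact mul_ne_zero (iv_ne (mul_ne_zero h1 h2))
      (mul_ne_zero (pow_ne_zero _ hX1) (pow_ne_zero _ h1X'))
  · exact mul_ne_zero (mul_ne_zero (mul_ne_zero (mul_ne_zero (iv_ne hD) hX1) hN) h1X')
      (iv_ne (mul_ne_zero h1 h2))
  · rw [map_mul] at uq
    rw [J0]
    rw [map_mul] at uq
    exact isUnit_of_mul_isUnit_right uq
  · have uGn : IsUnit (j (ln γ δ) ^ (a + b)) := uG.pow _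
    apply uGn.mul_right_cancel
    rw [map_mul, map_mul, map_pow, map_pow, map_sub, map_one, J0, J0, J1]
    rw [map_mul, map_mul, map_mul, map_pow, map_pow, map_pow, map_sub] at hc
    have e2 : V ^ a * (1 - V) ^ b * j (ln γ δ) ^ (a + b) =
        j (ln α β) ^ a * (j (ln γ δ) - j (ln α β)) ^ b := by
      rw [← hV, pow_add]
      have h3 : j (ln γ δ) - V * j (ln γ δ) = (1 - V) * j (ln γ δ) := by ring
      rw [h3, mul_pow, mul_pow]
      ring
    rw [mul_assoc, hc, mul_assoc (j (iv k 0 c₁)), ← e2]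
    ring

end Pool.Agent.Helper71.W5
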