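import Pool.Agent.Helper71.W5.Split

/-!
# Cyclic covers of the plane: products of functions of one variable, generic invariance
-/

set_option autoImplicit false

namespace Pool.Agent.Helper71.W5

open Polynomial
open Pool.Agent.Helper87.CC (IsLC isLC_std ft_of_surj ft_of_hom ft_loc ft_alg)
open Pool.Agent.Helper29.CQ (FormalClass)
open Pool.Agent.Helper67.CQ
open Pool.Agent.Helper9.QP (PK lc_ft ft_fin char_fin pk_curve dim_away lc_char)
open Pool.Agent.Helper9.TP

variable {p : ℕ} {P : ∀ (A : Type) [CommRing A], Prop} {k : Type} [Field k]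

/-! ### Generic invariance -/

theorem lc_congr {S T : Type} [CommRing S] [CommRing T] {j : S →+* T} {I : Ideal S} {u u' : S}
    (hj : IsLC j I u) (h : ∀ (E : Type) [CommRing E] (v : S →+* E), IsUnit (v u') → IsUnit (v u))
    (hu' : IsUnit (j u')) : IsLC j I u' :=
  ⟨hj.zero, hu', fun E _ v hv hv' => hj.ex E v hv (h E v hv'), hj.uniq⟩

theorem qa_congr {n : ℕ} {S : Type} [CommRing S] {A B A' B' u : S} {I : Ideal S} {N : ℕ}
    (hB : B ∣ u ^ N) (e : A * B' = A' * B) (h : QA P n A B I u) : QA P n A' B' I u := by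
  intro T _ j a hj hB' ha
  refine h T j a hj (unit_of_dvd j hB hj.unit) ?_
  have h1 : a * j B * j B' = j A * j B' := by
    rw [mul_right_comm, ha, ← map_mul, ← map_mul, e]
  exact hB'.mul_right_cancel h1

theorem qa_more [Finite k] (hP : FormalClass p P) (hk : (p : k) = 0) {n : ℕ} (hn : n ≠ 0)
    {A B u f : MvPolynomial (Fin 2) k} (hf : f ≠ 0) (h : QA P n A B ⊥ (u * f)) :
    QA P n A B ⊥ u := by
  refine qa_glue hP (ft_fin 2) (char_fin hk 2) f ?_ h
  refine qa_curve hP hn (ft_fin 2) (char_fin hk 2) ?_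
  rw [bot_sup_eq]
  exact dim_quot hf

theorem qa_less [Finite k] (hP : FormalClass p P) (hk : (p : k) = 0) {n : ℕ} (hn : n ≠ 0)
    {A B u f : MvPolynomial (Fin 2) k} {N : ℕ} (hB : B ∣ u ^ N) (hf : f ≠ 0)
    (h : QA P n A B ⊥ u) : QA P n A B ⊥ (u * f) := by
  refine qa_open hP f hB ?_ h
  refine qa_curve hP hn (ft_fin 2) (char_fin hk 2) ?_
  rw [bot_sup_eq]
  exact dim_quot hf

/-- the cover depends on the function only -/
theorem qa_any [Finite k] (hP : FormalClass p P) (hk : (p : k) = 0) {n : ℕ} (hn : n ≠ 0)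
    {A B A' B' u u' : MvPolynomial (Fin 2) k} {N : ℕ} (hB : B ∣ u ^ N) (hu : u ≠ 0)
    (hu' : u' ≠ 0) (e : A * B' = A' * B) (h : QA P n A B ⊥ u) : QA P n A' B' ⊥ u' := by
  refine qa_more hP hk hn hu ?_
  rw [mul_comm]
  refine qa_congr (N := N) ?_ e (qa_less hP hk hn hB hu' h)
  rw [mul_pow]
  exact hB.mul_right _

/-! ### Functions of one variable -/

/-- polynomials in one of the two variables -/
noncomputable def iv (k : Type) [Field k] (l : Fin 2) : k[X] →ₐ[k] MvPolynomial (Fin 2) k :=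
  Polynomial.aeval (MvPolynomial.X l)

theorem iv_C (l : Fin 2) (c : k) : iv k l (C c) = MvPolynomial.C c := by
  rw [iv, aeval_C]
  rfl

theorem iv_X (l : Fin 2) : iv k l X = MvPolynomial.X l := aeval_X _

theorem iv_inj (l : Fin 2) : Function.Injective (iv k l) := by
  have h1 : (MvPolynomial.aeval (fun _ => X) : MvPolynomial (Fin 2) k →ₐ[k] k[X]).comp (iv k l) =
      AlgHom.id k _ := by
    apply Polynomial.algHom_ext
    rw [AlgHom.comp_apply, iv_X, MvPolynomial.aeval_X, AlgHom.id_apply]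
  exact Function.LeftInverse.injective
    (g := (MvPolynomial.aeval (fun _ => X) : MvPolynomial (Fin 2) k →ₐ[k] k[X]))
    fun x => DFunLike.congr_fun h1 x

theorem iv_ne {l : Fin 2} {q : k[X]} (h : q ≠ 0) : iv k l q ≠ 0 := by
  rw [← map_zero (iv k l)]
  exact fun h' => h (iv_inj l h')

theorem iv_ext {E : Type} [CommRing E] {l : Fin 2} {v v' : MvPolynomial (Fin 2) k →+* E}
    (hC : ∀ c, v (MvPolynomial.C c) = v' (MvPolynomial.C c))
    (hX : v (MvPolynomial.X l) = v' (MvPolynomial.X l)) (q : k[X]) :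
    v (iv k l q) = v' (iv k l q) := by
  have h1 : v.comp (iv k l).toRingHom = v'.comp (iv k l).toRingHom := by
    refine Polynomial.ringHom_ext ?_ ?_
    · intro c
      change v (iv k l (C c)) = v' (iv k l (C c))
      rw [iv_C, hC]
    · change v (iv k l X) = v' (iv k l X)
      rw [iv_X, hX]
  exact RingHom.congr_fun h1 q

theorem lc_sep {A W T : Type} [CommRing A] [CommRing W] [CommRing T] [Algebra k A] [Algebra k W]
    {i : A →+* T} {j : W →+* T} (h : IsTK k i j) {iA : k[X] →ₐ[k] A} {iW : k[X] →ₐ[k] W}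
    {a g : k[X]} (hA : IsLC (iA : k[X] →+* A) ⊥ a) (hW : IsLC (iW : k[X] →+* W) ⊥ g) :
    ∃ J : MvPolynomial (Fin 2) k →+* T, IsLC J ⊥ (iv k 0 a * iv k 1 g) ∧
      (∀ q, J (iv k 0 q) = i (iA q)) ∧ ∀ q, J (iv k 1 q) = j (iW q) := by
  let J : MvPolynomial (Fin 2) k →+* T := MvPolynomial.eval₂Hom (i.comp (algebraMap k A))
    ![i (iA X), j (iW X)]
  have JC : ∀ c, J (MvPolynomial.C c) = i (algebraMap k A c) := fun c =>
    MvPolynomial.eval₂Hom_C _ _ _
  have J0 : J (MvPolynomial.X 0) = i (iA X) := MvPolynomial.eval₂Hom_X' _ _ _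
  have J1 : J (MvPolynomial.X 1) = j (iW X) := MvPolynomial.eval₂Hom_X' _ _ _
  have hJ0 : ∀ q, J (iv k 0 q) = i (iA q) := by
    have h1 : J.comp (iv k 0).toRingHom = i.comp (iA : k[X] →+* A) := by
      refine Polynomial.ringHom_ext ?_ ?_
      · intro c
        change J (iv k 0 (C c)) = i (iA (C c))
        rw [iv_C, JC]
        exact congrArg i (iA.commutes c).symm
      · change J (iv k 0 X) = i (iA X)
        rw [iv_X, J0]
    exact fun q => RingHom.congr_fun h1 q
  have hJ1 : ∀ q, J (iv k 1 q) = j (iW q) := by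
    have h1 : J.comp (iv k 1).toRingHom = j.comp (iW : k[X] →+* W) := by
      refine Polynomial.ringHom_ext ?_ ?_
      · intro c
        change J (iv k 1 (C c)) = j (iW (C c))
        rw [iv_C, JC, h.comm]
        exact congrArg j (iW.commutes c).symm
      · change J (iv k 1 X) = j (iW X)
        rw [iv_X, J1]
    exact fun q => RingHom.congr_fun h1 q
  refine ⟨J, ⟨?_, ?_, ?_, ?_⟩, hJ0, hJ1⟩
  · intro b hb
    rw [Ideal.mem_bot.1 hb, map_zero]
  · rw [map_mul, hJ0, hJ1]
    exact (hA.unit.map i).mul (hW.unit.map j)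
  · intro E _ v _ hv
    rw [map_mul] at hv
    obtain ⟨u₁, h1⟩ := hA.ex E (v.comp (iv k 0).toRingHom) (fun b hb => by
      rw [Ideal.mem_bot.1 hb, map_zero]) (isUnit_of_mul_isUnit_left hv)
    obtain ⟨u₂, h2⟩ := hW.ex E (v.comp (iv k 1).toRingHom) (fun b hb => by
      rw [Ideal.mem_bot.1 hb, map_zero]) (isUnit_of_mul_isUnit_right hv)
    have h1' : ∀ q, u₁ (iA q) = v (iv k 0 q) := fun q => RingHom.congr_fun h1 q
    have h2' : ∀ q, u₂ (iW q) = v (iv k 1 q) := fun q => RingHom.congr_fun h2 q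
    have hc1 : ∀ s, u₁ (algebraMap k A s) = v (MvPolynomial.C s) := by
      intro s
      have h3 := h1' (C s)
      rw [iv_C] at h3
      rw [← h3]
      exact congrArg u₁ (iA.commutes s).symm
    have hc2 : ∀ s, u₂ (algebraMap k W s) = v (MvPolynomial.C s) := by
      intro s
      have h3 := h2' (C s)
      rw [iv_C] at h3
      rw [← h3]
      exact congrArg u₂ (iW.commutes s).symm
    obtain ⟨f, hf1, hf2⟩ := h.ex E u₁ u₂ (fun s => by rw [hc1, hc2])
    have hf1' : ∀ x, f (i x) = u₁ x := fun x => RingHom.congr_fun hf1 x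
    have hf2' : ∀ x, f (j x) = u₂ x := fun x => RingHom.congr_fun hf2 x
    refine ⟨f, ?_⟩
    apply MvPolynomial.ringHom_ext
    · intro c
      change f (J (MvPolynomial.C c)) = v (MvPolynomial.C c)
      rw [JC, hf1', hc1]
    · intro l
      change f (J (MvPolynomial.X l)) = v (MvPolynomial.X l)
      fin_cases l
      · change f (J (MvPolynomial.X 0)) = v (MvPolynomial.X 0)
        rw [J0, hf1', h1', iv_X]
      · change f (J (MvPolynomial.X 1)) = v (MvPolynomial.X 1)
        rw [J1, hf2', h2', iv_X]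
  · intro E _ f f' hh
    have hh' : ∀ x, f (J x) = f' (J x) := fun x => RingHom.congr_fun hh x
    refine h.uniq E _ _ ?_ ?_
    · apply hA.uniq
      refine RingHom.ext fun q => ?_
      change f (i (iA q)) = f' (i (iA q))
      rw [← hJ0, hh']
    · apply hW.uniq
      refine RingHom.ext fun q => ?_
      change f (j (iW q)) = f' (j (iW q))
      rw [← hJ1, hh']

/-- **products of functions of one variable** -/
theorem qa_sep [Finite k] (hP : FormalClass p P) (hk : (p : k) = 0) {n : ℕ} (hn : n ≠ 0)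
    (a₁ a₂ g₁ g₂ : k[X]) : QA P n (iv k 0 a₁ * iv k 1 g₁) (iv k 0 a₂ * iv k 1 g₂) ⊥
      (iv k 0 (a₁ * a₂) * iv k 1 (g₁ * g₂)) := by
  let A := Localization.Away (a₁ * a₂ : k[X])
  let W := Localization.Away (g₁ * g₂ : k[X])
  let iA : k[X] →ₐ[k] A := IsScalarTower.toAlgHom k k[X] A
  let iW : k[X] →ₐ[k] W := IsScalarTower.toAlgHom k k[X] W
  have hA : IsLC (iA : k[X] →+* A) ⊥ (a₁ * a₂) := isLC_away _
  have hW : IsLC (iW : k[X] →+* W) ⊥ (g₁ * g₂) := isLC_away _
  obtain ⟨T, _, i, j, hTK⟩ : ∃ (T : Type) (_ : CommRing T) (i : A →+* T) (j : W →+* T),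
      IsTK k i j := ⟨_, _, _, _, Pool.Agent.Helper71.PN.isTK_tensor (k := k) A W⟩
  obtain ⟨J, hJ, hJ0, hJ1⟩ := lc_sep hTK hA hW
  have hfk : Algebra.FiniteType ℤ k := by
    have : Module.Finite ℤ k := Module.Finite.of_finite
    infer_instance
  have hft : Algebra.FiniteType ℤ k[X] := ft_alg hfk inferInstance
  have hpX : (p : k[X]) = 0 := by rw [← map_natCast (C : k →+* k[X]), hk, map_zero]
  have hdX : ringKrullDim k[X] ≤ 1 := by
    rw [Polynomial.ringKrullDim_of_isNoetherianRing, ringKrullDim_eq_zero_of_field]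
    exact le_of_eq (zero_add 1)
  have hua : IsUnit (iA (a₁ * a₂)) := hA.unit
  have hug : IsUnit (iW (g₁ * g₂)) := hW.unit
  rw [map_mul] at hua hug
  obtain ⟨c, hc⟩ := ex_b (iA : k[X] →+* A) a₁ a₂ (isUnit_of_mul_isUnit_right hua)
  obtain ⟨g, hg⟩ := ex_b (iW : k[X] →+* W) g₁ g₂ (isUnit_of_mul_isUnit_right hug)
  have hc' : c * iA a₂ = iA a₁ := hc
  have hg' : g * iW g₂ = iW g₁ := hg
  have hcu : IsUnit c := by
    have h1 : IsUnit (c * iA a₂) := by
      rw [hc']
      exact isUnit_of_mul_isUnit_left hua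
    exact isUnit_of_mul_isUnit_left h1
  refine qa_model hP hJ (a := i c * j g) ?_ ?_
  · rw [map_mul, map_mul, hJ0, hJ1, hJ0, hJ1, mul_mul_mul_comm, ← map_mul, ← map_mul, hc', hg']
  · refine pk_split hP hn (ft_loc hft _) ?_ (dim_away _ hdX) (ft_loc hft _) ?_ (dim_away _ hdX)
      (lc_ft hJ (ft_fin 2)) hTK hcu g
    · rw [← map_natCast (algebraMap k[X] A), hpX, map_zero]
    · rw [← map_natCast (algebraMap k[X] W), hpX, map_zero]

end Pool.Agent.Helper71.W5
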