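import Pool.Agent.Helper71.W6.Root
import Pool.Agent.Helper71.PN.Join

/-!
# Cyclic covers of products of two curves, branched along products
-/

set_option autoImplicit false

namespace Pool.Agent.Helper71.W5

open Polynomial
open Pool.Agent.Helper87.CC (IsLC isLC_std ft_of_surj ft_of_hom ft_loc ft_alg)
open Pool.Agent.Helper29.CQ (FormalClass)
open Pool.Agent.Helper67.CQ
open Pool.Agent.Helper9.QP (PK lc_ft ft_fin char_fin pk_curve dim_away lc_char)
open Pool.Agent.Helper9.TP

variable {p : ℕ} {P : ∀ (A : Type) [CommRing A], Prop}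

/-- `n`-th powers of units do not change the cover -/
theorem pk_unit (hP : FormalClass p P) {n : ℕ} {T : Type} [CommRing T] {c : T} (hc : IsUnit c)
    (a : T) (h : PK P n a) : PK P n (c ^ n * a) := by
  obtain ⟨u, rfl⟩ := hc
  have hB := isKum_std n a
  have hK : IsKum (AdjoinRoot.of (X ^ n - C a : T[X]))
      (AdjoinRoot.of (X ^ n - C a : T[X]) (u : T) * AdjoinRoot.root (X ^ n - C a : T[X])) n
      ((u : T) ^ n * a) := by
    refine ⟨?_, ?_, ?_⟩
    · rw [mul_pow, hB.rel, map_mul, map_pow]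
    · intro E _ v e he
      have hv : v (u : T) * v (u⁻¹ : Tˣ) = 1 := by rw [← map_mul, Units.mul_inv, map_one]
      obtain ⟨g, hg1, hg2⟩ := hB.ex E v (v (u⁻¹ : Tˣ) * e) (by
        rw [mul_pow, he, map_mul, map_pow]
        have h2 : (v (u⁻¹ : Tˣ)) ^ n * (v (u : T)) ^ n = 1 := by
          rw [← mul_pow, mul_comm, hv, one_pow]
        rw [← mul_assoc, h2, one_mul])
      refine ⟨g, hg1, ?_⟩
      have hg1' : ∀ x, g (AdjoinRoot.of (X ^ n - C a : T[X]) x) = v x := fun x =>
        RingHom.congr_fun hg1 x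
      rw [map_mul, hg1', hg2, ← mul_assoc, hv, one_mul]
    · intro E _ g g' h1 h2
      refine hB.uniq E _ _ h1 ?_
      have h1' : ∀ x, g (AdjoinRoot.of (X ^ n - C a : T[X]) x) =
          g' (AdjoinRoot.of (X ^ n - C a : T[X]) x) := fun x => RingHom.congr_fun h1 x
      have hu : IsUnit (g' (AdjoinRoot.of (X ^ n - C a : T[X]) (u : T))) :=
        (u.isUnit.map (AdjoinRoot.of (X ^ n - C a : T[X]))).map g'
      rw [map_mul, map_mul, h1'] at h2
      exact hu.mul_left_cancel h2
  obtain ⟨e⟩ := hK.equiv (RingEquiv.refl T) (isKum_std n ((RingEquiv.refl T) ((u : T) ^ n * a)))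
  exact hP.iso _ _ e h

/-- **covers of products of curves** -/
theorem pk_split (hP : FormalClass p P) {k : Type} [Field k] [Finite k] {n : ℕ} (hn : n ≠ 0)
    {A W T : Type} [CommRing A] [CommRing W] [CommRing T] [Algebra k A] [Algebra k W]
    (hA : Algebra.FiniteType ℤ A) (pA : (p : A) = 0) (dA : ringKrullDim A ≤ 1)
    (hW : Algebra.FiniteType ℤ W) (pW : (p : W) = 0) (dW : ringKrullDim W ≤ 1)
    (hT : Algebra.FiniteType ℤ T) {i : A →+* T} {j : W →+* T} (h : IsTK k i j) {c : A}
    (hc : IsUnit c) (g : W) : PK P n (i c * j g) := by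
  have hK := isKum_std n (i c)
  set T' := AdjoinRoot (X ^ n - C (i c) : T[X]) with hT'
  set o : T →+* T' := AdjoinRoot.of (X ^ n - C (i c) : T[X]) with ho
  set ξ : T' := AdjoinRoot.root (X ^ n - C (i c) : T[X]) with hξ
  refine Pool.Agent.Helper71.W6.pk_root hP hn hT hK _ ?_
  rw [map_mul, ← hK.rel]
  have hu : IsUnit ξ := by
    refine (isUnit_pow_iff hn).1 ?_
    rw [hK.rel]
    exact (hc.map i).map o
  refine pk_unit hP hu _ ?_
  have h1 := isKum_std n c
  have h2 := isKum_std n g
  have h3 := isKum_std n (o (j g))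
  set X₃ := AdjoinRoot (X ^ n - C (o (j g)) : T'[X]) with hX₃
  set q : T' →+* X₃ := AdjoinRoot.of (X ^ n - C (o (j g)) : T'[X]) with hq
  obtain ⟨e₁, he1, he1'⟩ := h1.ex X₃ ((q.comp o).comp i) (q ξ) (by
    rw [← map_pow, hK.rel]
    rfl)
  obtain ⟨e₂, he2, he2'⟩ := h2.ex X₃ ((q.comp o).comp j) (AdjoinRoot.root _) h3.rel
  have he1x : ∀ x, e₁ (AdjoinRoot.of _ x) = q (o (i x)) := fun x => RingHom.congr_fun he1 x
  have he2x : ∀ x, e₂ (AdjoinRoot.of _ x) = q (o (j x)) := fun x => RingHom.congr_fun he2 x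
  have hTK : IsTK k e₁ e₂ := by
    refine ⟨?_, ?_, ?_⟩
    · intro s
      have hs1 : algebraMap k (AdjoinRoot (X ^ n - C c : A[X])) s =
          AdjoinRoot.of _ (algebraMap k A s) := rfl
      have hs2 : algebraMap k (AdjoinRoot (X ^ n - C g : W[X])) s =
          AdjoinRoot.of _ (algebraMap k W s) := rfl
      rw [hs1, hs2, he1x, he2x, h.comm]
    · intro E _ u v huv
      obtain ⟨f, hf1, hf2⟩ := h.ex E (u.comp (AdjoinRoot.of _)) (v.comp (AdjoinRoot.of _)) huv
      have hf1' : ∀ x, f (i x) = u (AdjoinRoot.of _ x) := fun x => RingHom.congr_fun hf1 x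
      have hf2' : ∀ x, f (j x) = v (AdjoinRoot.of _ x) := fun x => RingHom.congr_fun hf2 x
      obtain ⟨f', hf3, hf4⟩ := hK.ex E f (u (AdjoinRoot.root _)) (by
        rw [← map_pow, h1.rel, hf1'])
      have hf3' : ∀ x, f' (o x) = f x := fun x => RingHom.congr_fun hf3 x
      obtain ⟨f'', hf5, hf6⟩ := h3.ex E f' (v (AdjoinRoot.root _)) (by
        rw [← map_pow, h2.rel, hf3', hf2'])
      have hf5' : ∀ x, f'' (q x) = f' x := fun x => RingHom.congr_fun hf5 x
      refine ⟨f'', ?_, ?_⟩
      · refine h1.uniq E _ _ ?_ ?_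
        · refine RingHom.ext fun x => ?_
          change f'' (e₁ (AdjoinRoot.of _ x)) = u (AdjoinRoot.of _ x)
          rw [he1x, hf5', hf3', hf1']
        · change f'' (e₁ (AdjoinRoot.root _)) = u (AdjoinRoot.root _)
          rw [he1', hf5']
          exact hf4
      · refine h2.uniq E _ _ ?_ ?_
        · refine RingHom.ext fun x => ?_
          change f'' (e₂ (AdjoinRoot.of _ x)) = v (AdjoinRoot.of _ x)
          rw [he2x, hf5', hf3', hf2']
        · change f'' (e₂ (AdjoinRoot.root _)) = v (AdjoinRoot.root _)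
          rw [he2']
          exact hf6
    · intro E _ f f' hf1 hf2
      have hf1' : ∀ x, f (e₁ x) = f' (e₁ x) := fun x => RingHom.congr_fun hf1 x
      have hf2' : ∀ x, f (e₂ x) = f' (e₂ x) := fun x => RingHom.congr_fun hf2 x
      refine h3.uniq E _ _ ?_ ?_
      · refine hK.uniq E _ _ ?_ ?_
        · refine h.uniq E _ _ ?_ ?_
          · refine RingHom.ext fun x => ?_
            change f (q (o (i x))) = f' (q (o (i x)))
            rw [← he1x, hf1']
          · refine RingHom.ext fun x => ?_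
            change f (q (o (j x))) = f' (q (o (j x)))
            rw [← he2x, hf2']
        · change f (q ξ) = f' (q ξ)
          rw [← he1', hf1']
      · rw [← he2', hf2']
  exact p_tk hP hTK (pk_curve hP hn hA pA dA c) (pk_curve hP hn hW pW dW g)

end Pool.Agent.Helper71.W5
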